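import Pool.Agent.H.MP_540292_al.Ring

set_option autoImplicit false

namespace Pool.Agent.H.MP_540292_al

open Pool.Agent.H.MP_a23033_al MonoidAlgebra

/-- the Magnus group: pairs over the group ring, extended by the Heisenberg group -/
@[ext] structure E : Type where
  a : S
  b : S
  g : G

noncomputable instance : Mul E := ⟨fun u v => ⟨u.a + o u.g * v.a, u.b + o u.g * v.b, u.g * v.g⟩⟩
noncomputable instance : One E := ⟨⟨0, 0, 1⟩⟩
noncomputable instance : Inv E := ⟨fun u => ⟨o u.g⁻¹ * u.a, o u.g⁻¹ * u.b, u.g⁻¹⟩⟩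

@[simp] lemma mul_a (u v : E) : (u * v).a = u.a + o u.g * v.a := rfl
@[simp] lemma mul_b (u v : E) : (u * v).b = u.b + o u.g * v.b := rfl
@[simp] lemma mul_g (u v : E) : (u * v).g = u.g * v.g := rfl
@[simp] lemma one_a : (1 : E).a = 0 := rfl
@[simp] lemma one_b : (1 : E).b = 0 := rfl
@[simp] lemma one_g : (1 : E).g = 1 := rfl
@[simp] lemma inv_a (u : E) : (u⁻¹).a = o u.g⁻¹ * u.a := rfl
@[simp] lemma inv_b (u : E) : (u⁻¹).b = o u.g⁻¹ * u.b := rfl
@[simp] lemma inv_g (u : E) : (u⁻¹).g = u.g⁻¹ := rfl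

noncomputable instance : Group E := Group.ofLeftAxioms
  (fun u v w => by ext1 <;> simp [o_mul, mul_add, mul_assoc, add_assoc])
  (fun u => by ext1 <;> simp [o_one])
  (fun u => by ext1 <;> simp [add_self])

noncomputable def gens : Fin 2 → E := ![⟨1, 0, gx⟩, ⟨0, 1, gy⟩]
noncomputable def mu : FreeGroup (Fin 2) →* E := FreeGroup.lift gens

noncomputable def bh (θ : Fin 2 → E) : S →+* S :=
  mapDomainRingHom (ZMod 2) (be (θ 0).g (θ 1).g)

lemma bh_o (θ : Fin 2 → E) (g : G) : bh θ (o g) = o (be (θ 0).g (θ 1).g g) := by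
  simp [bh, o]

noncomputable def Ph (θ : Fin 2 → E) : E →* E := MonoidHom.mk'
  (fun u => ⟨bh θ u.a * (θ 0).a + bh θ u.b * (θ 1).a, bh θ u.a * (θ 0).b + bh θ u.b * (θ 1).b,
    be (θ 0).g (θ 1).g u.g⟩)
  (fun u v => by
    ext1
    · simp only [mul_a, mul_b, map_add, map_mul, bh_o]; noncomm_ring
    · simp only [mul_a, mul_b, map_add, map_mul, bh_o]; noncomm_ring
    · simp)

lemma Ph_apply (θ : Fin 2 → E) (u : E) : Ph θ u =
    ⟨bh θ u.a * (θ 0).a + bh θ u.b * (θ 1).a, bh θ u.a * (θ 0).b + bh θ u.b * (θ 1).b,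
    be (θ 0).g (θ 1).g u.g⟩ := rfl

lemma lift_eq (θ : Fin 2 → E) (w : FreeGroup (Fin 2)) : FreeGroup.lift θ w = Ph θ (mu w) := by
  have : FreeGroup.lift θ = (Ph θ).comp mu := by
    ext1 i
    fin_cases i <;> simp [mu, gens, Ph_apply, be_x, be_y]
  rw [this]; rfl

lemma mu_lift {α : Type} (a : α → FreeGroup (Fin 2)) (w : FreeGroup α) :
    mu (FreeGroup.lift a w) = FreeGroup.lift (fun j => mu (a j)) w := by
  have : mu.comp (FreeGroup.lift a) = FreeGroup.lift (fun j => mu (a j)) := by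
    ext1 i; simp
  exact DFunLike.congr_fun this w

def W : Set (FreeGroup ℕ) := {w | ∀ f : ℕ → E, FreeGroup.lift f w = 1}

def mk (l m : List G) (g : G) : List G × List G × G := (l, m, g)
noncomputable def ev (t : List G × List G × G) : E := ⟨P t.1, P t.2.1, t.2.2⟩
def tm (t s : List G × List G × G) : List G × List G × G :=
  (t.1 ++ lm [t.2.2] s.1, t.2.1 ++ lm [t.2.2] s.2.1, t.2.2 * s.2.2)
def ti (t : List G × List G × G) : List G × List G × G :=
  (lm [t.2.2⁻¹] t.1, lm [t.2.2⁻¹] t.2.1, t.2.2⁻¹)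

lemma P_one (g : G) : P [g] = o g := by simp [P]

lemma ev_tm (t s : List G × List G × G) : ev t * ev s = ev (tm t s) := by
  ext1 <;> simp [ev, tm, P_app, P_lm, P_one]

lemma ev_ti (t : List G × List G × G) : (ev t)⁻¹ = ev (ti t) := by
  ext1 <;> simp [ev, ti, P_lm, P_one]

noncomputable def zw : FreeGroup (Fin 2) :=
  FreeGroup.of 1 * FreeGroup.of 0 * (FreeGroup.of 1)⁻¹ * (FreeGroup.of 0)⁻¹

noncomputable def tw : FreeGroup (Fin 2) :=
  (FreeGroup.of 0)⁻¹ * (zw * FreeGroup.of 0 * zw⁻¹ * (FreeGroup.of 0)⁻¹) * FreeGroup.of 0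

noncomputable def cc : FreeGroup (Fin 2) := zw * tw * zw⁻¹ * tw

lemma mu_cc : mu cc = ⟨P mq, P mp + 1, 1⟩ := by
  have h0 : mu (FreeGroup.of 0) = ev ([1], [], gx) := by simp [mu, gens, ev, P_one, o_one, P_nil]
  have h1 : mu (FreeGroup.of 1) = ev ([], [1], gy) := by simp [mu, gens, ev, P_one, o_one, P_nil]
  simp only [cc, tw, zw, map_mul, map_inv, h0, h1, ev_tm, ev_ti]
  ext1
  · exact P_eq _ _ (by decide +kernel)
  · rw [← o_one, ← P_one, ← P_app]
    exact P_eq _ _ (by decide +kernel)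
  · change _ = (1 : G)
    decide +kernel

lemma mu_zw : (mu zw).g = gz := by
  simp only [zw, map_mul, map_inv, mul_g, inv_g]
  simp only [mu, gens, FreeGroup.lift_apply_of, Matrix.cons_val_zero, Matrix.cons_val_one]
  decide

lemma mu_h : mu (cc * FreeGroup.of 1) = ⟨P mq, P mp, gy⟩ := by
  rw [map_mul, mu_cc]
  ext1 <;> simp [mu, gens, o_one, add_assoc, add_self]

lemma surj (g : G) : ∃ w, (mu w).g = g := by
  let π : E →* G := MonoidHom.mk' E.g (fun _ _ => rfl)
  exact gen (π.comp mu).range ⟨FreeGroup.of 0, by simp [mu, gens, π]⟩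
    ⟨FreeGroup.of 1, by simp [mu, gens, π]⟩ g

lemma nonprim (A B : Fin 2 → E) (h1 : ∀ j, Ph B (A j) = gens j) (h2 : ∀ j, Ph A (B j) = gens j)
    (i : Fin 2) (hi : A i = ⟨P mq, P mp, gy⟩) : False := by
  have hc : (be (A 0).g (A 1).g).comp (be (B 0).g (B 1).g) = MonoidHom.id G := by
    ext1 g
    refine gen (MonoidHom.eqLocus _ _) ?_ ?_ g
    · change be _ _ (be _ _ gx) = gx
      rw [be_x]; exact congrArg E.g (h2 0)
    · change be _ _ (be _ _ gy) = gy
      rw [be_y]; exact congrArg E.g (h2 1)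
  have hb : ∀ s, bh A (bh B s) = s := by
    intro s
    have : (bh A).comp (bh B) = RingHom.id S := by
      rw [bh, bh, ← mapDomainRingHom_comp, hc, mapDomainRingHom_id]
    exact DFunLike.congr_fun this s
  have e1 := congrArg E.a (h2 0)
  have e2 := congrArg E.b (h2 0)
  have e3 := congrArg (fun u => bh A u.b) (h1 0)
  have e4 := congrArg (fun u => bh A u.a) (h1 1)
  simp only [Ph_apply, gens, map_add, map_mul, hb, Matrix.cons_val_zero, Matrix.cons_val_one,
    map_zero] at e1 e2 e3 e4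
  fin_cases i
  · simp only [Fin.zero_eta] at hi
    simp only [hi] at e1 e2 e3
    refine nonfree _ _ e3 fun u v huv => ⟨(A 1).a * u + (A 1).b * v, ?_⟩
    calc u = 1 * u + 0 * v := by simp
      _ = bh A (B 0).a * (P mq * u + P mp * v) + bh A (B 0).b * ((A 1).a * u + (A 1).b * v) := by
        rw [← e1, ← e2]; noncomm_ring
      _ = _ := by rw [huv]; simp
  · simp only [Fin.mk_one] at hi
    simp only [hi] at e1 e2 e4
    refine nonfree _ _ e4 fun u v huv => ⟨(A 0).a * u + (A 0).b * v, ?_⟩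
    calc u = 1 * u + 0 * v := by simp
      _ = bh A (B 0).b * (P mq * u + P mp * v) + bh A (B 0).a * ((A 0).a * u + (A 0).b * v) := by
        rw [← e1, ← e2]; noncomm_ring
      _ = _ := by rw [huv]; simp


/- rank three -/

def rs (θ : Fin 3 → E) : Fin 2 → E := fun i => θ (Fin.castLE (by omega) i)

noncomputable def inc : FreeGroup (Fin 2) →* FreeGroup (Fin 3) :=
  FreeGroup.map (Fin.castLE (by omega))

lemma lift_inc (θ : Fin 3 → E) (w : FreeGroup (Fin 2)) :
    FreeGroup.lift θ (inc w) = Ph (rs θ) (mu w) := by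
  rw [← lift_eq]
  have : (FreeGroup.lift θ).comp inc = FreeGroup.lift (rs θ) := by
    ext1 i; simp [inc, rs]
  exact DFunLike.congr_fun this w

def Re (κ : (Fin 3 → E) → S) : Prop :=
  ∃ l : List (FreeGroup (Fin 3)), ∀ θ, κ θ = (l.map fun w => o (FreeGroup.lift θ w).g).sum

def RW (a b : (Fin 3 → E) → S) : Prop :=
  ∃ w : FreeGroup (Fin 3), ∀ θ : Fin 3 → E, FreeGroup.lift θ w = ⟨a θ, b θ, 1⟩

lemma Re.add {κ κ' : (Fin 3 → E) → S} (h : Re κ) (h' : Re κ') : Re (fun θ => κ θ + κ' θ) := by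
  obtain ⟨l, hl⟩ := h
  obtain ⟨l', hl'⟩ := h'
  exact ⟨l ++ l', fun θ => by simp [hl, hl']⟩

lemma Re.w (w : FreeGroup (Fin 3)) : Re (fun θ => o (FreeGroup.lift θ w).g) :=
  ⟨[w], fun θ => by simp⟩

lemma Re.mul {κ κ' : (Fin 3 → E) → S} (h : Re κ) (h' : Re κ') : Re (fun θ => κ θ * κ' θ) := by
  obtain ⟨l, hl⟩ := h
  obtain ⟨l', hl'⟩ := h'
  refine ⟨l.flatMap fun a => l'.map fun b => a * b, fun θ => ?_⟩
  simp only [hl, hl']
  clear hl hl'
  induction l with
  | nil => simp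
  | cons a l ih =>
    simp only [List.map_cons, List.sum_cons, add_mul, ih, List.flatMap_cons, List.map_append,
      List.sum_append, List.map_map]
    congr 1
    rw [← List.sum_map_mul_left]
    congr 1
    apply List.map_congr_left
    intro b _
    simp [o_mul]

lemma Re.bh (s : S) : Re (fun θ => bh (rs θ) s) := by
  induction s using MonoidAlgebra.induction_linear with
  | zero => exact ⟨[], fun θ => by simp⟩
  | add f g hf hg => simpa only [map_add] using hf.add hg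
  | single g c =>
    have hc : c = 0 ∨ c = 1 := by revert c; decide
    rcases hc with rfl | rfl
    · exact ⟨[], fun θ => by simp⟩
    · obtain ⟨w, rfl⟩ := surj g
      refine ⟨[inc w], fun θ => ?_⟩
      simp only [List.map_cons, List.map_nil, List.sum_cons, List.sum_nil, add_zero, lift_inc,
        Ph_apply]
      exact bh_o _ _

lemma RW.add {a b a' b' : (Fin 3 → E) → S} (h : RW a b) (h' : RW a' b') :
    RW (fun θ => a θ + a' θ) (fun θ => b θ + b' θ) := by
  obtain ⟨w, hw⟩ := h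
  obtain ⟨w', hw'⟩ := h'
  exact ⟨w * w', fun θ => by rw [map_mul, hw, hw']; ext1 <;> simp [o_one]⟩

lemma RW.smul {κ a b : (Fin 3 → E) → S} (hk : Re κ) (h : RW a b) :
    RW (fun θ => κ θ * a θ) (fun θ => κ θ * b θ) := by
  obtain ⟨w, hw⟩ := h
  obtain ⟨l, hl⟩ := hk
  refine ⟨(l.map fun v => v * w * v⁻¹).prod, fun θ => ?_⟩
  simp only [hl]
  clear hl
  induction l with
  | nil => ext1 <;> simp
  | cons v l ih =>
    have h2 : ∀ s t : S, s + t + s = t := fun s t => by
      rw [add_right_comm, add_self, zero_add]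
    simp only [List.map_cons, List.prod_cons, map_mul, map_inv, ih, hw, List.sum_cons]
    ext1
    · simp only [mul_a, mul_g, inv_a, inv_g, mul_one, ← mul_assoc, ← o_mul, mul_inv_cancel, o_one,
        one_mul, h2, add_mul]
    · simp only [mul_b, mul_g, inv_b, inv_g, mul_one, ← mul_assoc, ← o_mul, mul_inv_cancel, o_one,
        one_mul, h2, add_mul]
    · simp

noncomputable def cf (θ : Fin 3 → E) (s : S) : S := bh (rs θ) s
noncomputable def s0 (θ : Fin 3 → E) : S := (1 + o (θ 2).g) * cf θ (mu zw).a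
noncomputable def s1 (θ : Fin 3 → E) : S := (1 + o (θ 2).g) * cf θ (mu zw).b
noncomputable def ta (θ : Fin 3 → E) : S := cf θ (P mata) + s0 θ * cf θ (P mvh)
noncomputable def fA (θ : Fin 3 → E) (m : Fin 3 → S) : S :=
  cf θ (P mq) * m 0 + (cf θ (P mp) + 1) * m 1
noncomputable def fB (θ : Fin 3 → E) (m : Fin 3 → S) : S :=
  s0 θ * m 0 + s1 θ * m 1 + (cf θ (o gz) + 1) * m 2
noncomputable def fD (θ : Fin 3 → E) (m : Fin 3 → S) : S := (1 + s1 θ) * fA θ m + fB θ m
noncomputable def fF (θ : Fin 3 → E) (m : Fin 3 → S) : S := fA θ m + cf θ (P mp) * fB θ m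

noncomputable def dψ (θ : Fin 3 → E) (m : Fin 3 → S) : Fin 3 → S :=
  ![cf θ (P mv1) * fD θ m, fA θ m, ta θ * fD θ m]
noncomputable def dα (θ : Fin 3 → E) (m : Fin 3 → S) : Fin 3 → S :=
  ![cf θ (P mv1) * fF θ m, cf θ (P mu1) * fF θ m + fB θ m, ta θ * fF θ m]

def ca (θ : Fin 3 → E) : Fin 3 → S := fun i => (θ i).a
def cb (θ : Fin 3 → E) : Fin 3 → S := fun i => (θ i).b

lemma Re.cf (s : S) : Re (fun θ => cf θ s) := Re.bh s
lemma Re.one : Re (fun _ => 1) := by simpa [o_one] using Re.w 1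
lemma Re.z : Re (fun θ => 1 + o (θ 2).g) := by simpa using Re.one.add (Re.w (FreeGroup.of 2))
lemma Re.s0 : Re s0 := Re.z.mul (Re.cf _)
lemma Re.s1 : Re s1 := Re.z.mul (Re.cf _)
lemma Re.ta : Re ta := (Re.cf _).add (Re.s0.mul (Re.cf _))

lemma lift_cc (θ : Fin 3 → E) :
    FreeGroup.lift θ (inc cc) = ⟨fA θ (ca θ), fA θ (cb θ), 1⟩ := by
  rw [lift_inc, mu_cc, Ph_apply]
  simp [fA, cf, ca, cb, rs]

lemma rwA : RW (fun θ => fA θ (ca θ)) (fun θ => fA θ (cb θ)) := ⟨inc cc, lift_cc⟩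

lemma zc (a b g : G) : be a b gz * g = g * be a b gz := by
  ext <;> simp [be_apply, gz]; ring

lemma rwB : RW (fun θ => fB θ (ca θ)) (fun θ => fB θ (cb θ)) := by
  refine ⟨inc zw * FreeGroup.of 2 * (inc zw)⁻¹ * (FreeGroup.of 2)⁻¹, fun θ => ?_⟩
  simp only [map_mul, map_inv, lift_inc, Ph_apply, mu_zw, FreeGroup.lift_apply_of]
  have e1 : ∀ a b g : G, be a b gz * g * (be a b gz)⁻¹ = g := fun a b g => by
    rw [zc, mul_inv_cancel_right]
  have r0 : rs θ 0 = θ 0 := rfl
  have r1 : rs θ 1 = θ 1 := rfl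
  ext1
  · simp only [mul_a, mul_g, inv_a, inv_g, ← mul_assoc, ← o_mul, e1, mul_inv_cancel, o_one,
      one_mul, fB, s0, s1, cf, bh_o, ca, r0, r1]
    noncomm_ring
  · simp only [mul_b, mul_g, inv_b, inv_g, ← mul_assoc, ← o_mul, e1, mul_inv_cancel, o_one,
      one_mul, fB, s0, s1, cf, bh_o, cb, r0, r1]
    noncomm_ring
  · simp only [mul_g, inv_g, e1, mul_inv_cancel]

lemma rwD : RW (fun θ => fD θ (ca θ)) (fun θ => fD θ (cb θ)) :=
  (RW.smul (Re.one.add Re.s1) rwA).add rwB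

lemma rwF : RW (fun θ => fF θ (ca θ)) (fun θ => fF θ (cb θ)) :=
  rwA.add (RW.smul (Re.cf _) rwB)

lemma alg {R : Type} [Ring R] (h2 : ∀ s : R, s + s = 0) (p q u v t z a b x y w : R)
    (e1 : p * u + q * v = 1) (e2 : z * t = 1 + u + a * v) :
    (∀ A B D A' B' : R, A = q * x + (p + 1) * y → B = a * x + b * y + z * w →
      D = (1 + b) * A + B → A' = q * (x + v * D) + (p + 1) * (y + A) →
      B' = a * (x + v * D) + b * (y + A) + z * (w + t * D) →
      A' + p * B' = D ∧ u * D + B' = A) ∧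
    (∀ A B F A' B' : R, A = q * x + (p + 1) * y → B = a * x + b * y + z * w →
      F = A + p * B → A' = q * (x + v * F) + (p + 1) * (y + (u * F + B)) →
      B' = a * (x + v * F) + b * (y + (u * F + B)) + z * (w + t * F) →
      A' = u * F + B ∧ (1 + b) * A' + B' = F) := by
  constructor
  · intro A B D A' B' hA hB hD hA' hB'
    have f1 : A' = p * A + q * v * D := by
      rw [hA']
      calc _ = (q * x + (p + 1) * y + A) + (p * A + q * v * D) := by noncomm_ring
        _ = _ := by rw [← hA, h2, zero_add]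
    have f2 : B' = A + u * D := by
      rw [hB']
      calc _ = (a * x + b * y + z * w) + b * A + a * v * D + (z * t) * D := by noncomm_ring
        _ = ((1 + b) * A + B + D) + (a * v * D + a * v * D) + (u * D - A) := by
          rw [← hB, e2]; noncomm_ring
        _ = _ := by
          rw [← hD, h2, h2, sub_eq_add_neg, neg_eq_of_add_eq_zero_left (h2 A)]; abel
    constructor
    · rw [f1, f2]
      calc _ = (p * A + p * A) + (p * u + q * v) * D := by noncomm_ring
        _ = _ := by rw [h2, e1]; noncomm_ring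
    · rw [f2]
      calc _ = (u * D + u * D) + A := by abel
        _ = _ := by rw [h2, zero_add]
  · intro A B F A' B' hA hB hF hA' hB'
    have f1 : A' = u * F + B := by
      rw [hA']
      calc _ = (q * x + (p + 1) * y + p * B) + (p * u + q * v) * F + (u * F + B) := by
            noncomm_ring
        _ = _ := by rw [← hA, ← hF, e1, one_mul, h2, zero_add]
    refine ⟨f1, ?_⟩
    rw [f1, hB']
    calc _ = (1 + b) * (u * F + B) + ((a * x + b * y + z * w) + b * (u * F + B) + a * v * F +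
          (z * t) * F) := by noncomm_ring
      _ = (u * F + u * F) + (B + B) + (b * (u * F + B) + b * (u * F + B)) +
          (a * v * F + a * v * F) + F := by rw [← hB, e2]; noncomm_ring
      _ = _ := by simp only [h2, zero_add]

lemma zcs (θ : Fin 3 → E) (s : S) : cf θ (o gz) * s = s * cf θ (o gz) := by
  induction s using MonoidAlgebra.induction_linear with
  | zero => simp
  | add f g hf hg => rw [mul_add, add_mul, hf, hg]
  | single g c => rw [cf, bh_o]; simp [o, single_mul_single, zc]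

lemma k1 (θ : Fin 3 → E) : cf θ (P mp) * cf θ (P mu1) + cf θ (P mq) * cf θ (P mv1) = 1 := by
  simp only [cf, ← map_mul, ← map_add, j1, map_one]

lemma k2 (θ : Fin 3 → E) :
    (cf θ (o gz) + 1) * ta θ = 1 + cf θ (P mu1) + s0 θ * cf θ (P mv1) := by
  have e1 : cf θ (P mv1) = (cf θ (o gz) + 1) * cf θ (P mvh) := by
    simp only [cf, j2, map_mul, map_add, map_one]
  have e2 : (cf θ (o gz) + 1) * cf θ (P mata) = 1 + cf θ (P mu1) := by
    have := congrArg (cf θ) j3
    simpa only [cf, map_mul, map_add, map_one] using this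
  rw [ta, mul_add, e2, e1, ← mul_assoc, ← mul_assoc, add_mul (cf θ (o gz)), zcs, mul_add,
    one_mul, mul_one]

lemma same {θ θ' : Fin 3 → E} (h : ∀ i, (θ' i).g = (θ i).g) :
    dψ θ' = dψ θ ∧ dα θ' = dα θ := by
  have e : cf θ' = cf θ := by
    funext s; simp only [cf, bh, rs, h]
  constructor <;> funext m <;> simp only [dψ, dα, fD, fF, fA, fB, ta, s0, s1, e, h]

lemma inv1 (θ : Fin 3 → E) (m : Fin 3 → S) (i : Fin 3) :
    dα θ (fun j => dψ θ m j + m j) i = dψ θ m i := by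
  have := (alg add_self _ _ _ _ _ _ (s0 θ) (s1 θ) (m 0) (m 1) (m 2) (k1 θ) (k2 θ)).1
    (fA θ m) (fB θ m) (fD θ m) (fA θ (fun j => dψ θ m j + m j)) (fB θ (fun j => dψ θ m j + m j))
    rfl rfl rfl (by simp [fA, dψ, add_comm]) (by simp [fB, dψ, add_comm])
  have hF : fF θ (fun j => dψ θ m j + m j) = fD θ m := this.1
  fin_cases i
  · simp [dα, hF]; simp [dψ]
  · simp [dα, hF, this.2]; simp [dψ]
  · simp [dα, hF]; simp [dψ]

lemma inv2 (θ : Fin 3 → E) (m : Fin 3 → S) (i : Fin 3) :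
    dψ θ (fun j => dα θ m j + m j) i = dα θ m i := by
  have := (alg add_self _ _ _ _ _ _ (s0 θ) (s1 θ) (m 0) (m 1) (m 2) (k1 θ) (k2 θ)).2
    (fA θ m) (fB θ m) (fF θ m) (fA θ (fun j => dα θ m j + m j)) (fB θ (fun j => dα θ m j + m j))
    rfl rfl rfl (by simp [fA, dα, add_comm]) (by simp [fB, dα, add_comm])
  have hF : fD θ (fun j => dα θ m j + m j) = fF θ m := this.2
  fin_cases i
  · simp [dψ, hF]; simp [dα]
  · simp [dψ, this.1]; simp [dα]
  · simp [dψ, hF]; simp [dα]

lemma exψ : ∃ w : Fin 3 → FreeGroup (Fin 3), w 1 = inc cc ∧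
    ∀ (θ : Fin 3 → E) i, FreeGroup.lift θ (w i) = ⟨dψ θ (ca θ) i, dψ θ (cb θ) i, 1⟩ := by
  obtain ⟨w0, h0⟩ := RW.smul (Re.cf (P mv1)) rwD
  obtain ⟨w2, h2⟩ := RW.smul Re.ta rwD
  refine ⟨![w0, inc cc, w2], rfl, fun θ i => ?_⟩
  fin_cases i
  · exact h0 θ
  · exact lift_cc θ
  · exact h2 θ

lemma exα : ∃ w : Fin 3 → FreeGroup (Fin 3),
    ∀ (θ : Fin 3 → E) i, FreeGroup.lift θ (w i) = ⟨dα θ (ca θ) i, dα θ (cb θ) i, 1⟩ := by
  obtain ⟨w0, h0⟩ := RW.smul (Re.cf (P mv1)) rwF
  obtain ⟨w1, h1⟩ := (RW.smul (Re.cf (P mu1)) rwF).add rwB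
  obtain ⟨w2, h2⟩ := RW.smul Re.ta rwF
  refine ⟨![w0, w1, w2], fun θ i => ?_⟩
  fin_cases i
  · exact h0 θ
  · exact h1 θ
  · exact h2 θ

lemma lift_lift {α β : Type} (θ : β → E) (a : α → FreeGroup β) (w : FreeGroup α) :
    FreeGroup.lift θ (FreeGroup.lift a w) = FreeGroup.lift (fun j => FreeGroup.lift θ (a j)) w := by
  have : (FreeGroup.lift θ).comp (FreeGroup.lift a) =
      FreeGroup.lift (fun j => FreeGroup.lift θ (a j)) := by
    ext1 i; simp
  exact DFunLike.congr_fun this w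

theorem rank3 : ∃ a b : Fin 3 → FreeGroup (Fin 3), a 1 = inc (cc * FreeGroup.of 1) ∧
    (∀ (θ : Fin 3 → E) i, FreeGroup.lift θ (FreeGroup.lift a (b i)) = θ i) ∧
    (∀ (θ : Fin 3 → E) i, FreeGroup.lift θ (FreeGroup.lift b (a i)) = θ i) := by
  obtain ⟨w, hw1, hw⟩ := exψ
  obtain ⟨v, hv⟩ := exα
  have h2 : ∀ s t : S, s + (s + t) = t := fun s t => by rw [← add_assoc, add_self, zero_add]
  refine ⟨fun i => w i * FreeGroup.of i, fun i => v i * FreeGroup.of i, ?_, ?_, ?_⟩
  · simp [hw1, inc]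
  · intro θ i
    rw [lift_lift]
    set θ' : Fin 3 → E := fun j => FreeGroup.lift θ (w j * FreeGroup.of j) with hθ
    have e : ∀ j, θ' j = ⟨dψ θ (ca θ) j + ca θ j, dψ θ (cb θ) j + cb θ j, (θ j).g⟩ := by
      intro j; simp only [hθ, map_mul, hw]; ext1 <;> simp [o_one, ca, cb]
    have ea : ca θ' = fun j => dψ θ (ca θ) j + ca θ j := by funext j; simp only [ca, e]
    have eb : cb θ' = fun j => dψ θ (cb θ) j + cb θ j := by funext j; simp only [cb, e]
    rw [map_mul, hv, (same (θ := θ) (fun j => by rw [e])).2, ea, eb, inv1, inv1,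
      FreeGroup.lift_apply_of, e]
    ext1 <;> simp [o_one, h2, ca, cb]
  · intro θ i
    rw [lift_lift]
    set θ' : Fin 3 → E := fun j => FreeGroup.lift θ (v j * FreeGroup.of j) with hθ
    have e : ∀ j, θ' j = ⟨dα θ (ca θ) j + ca θ j, dα θ (cb θ) j + cb θ j, (θ j).g⟩ := by
      intro j; simp only [hθ, map_mul, hv]; ext1 <;> simp [o_one, ca, cb]
    have ea : ca θ' = fun j => dα θ (ca θ) j + ca θ j := by funext j; simp only [ca, e]
    have eb : cb θ' = fun j => dα θ (cb θ) j + cb θ j := by funext j; simp only [cb, e]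
    rw [map_mul, hw, (same (θ := θ) (fun j => by rw [e])).1, ea, eb, inv2, inv2,
      FreeGroup.lift_apply_of, e]
    ext1 <;> simp [o_one, h2, ca, cb]

def Nn (n : ℕ) : Subgroup (FreeGroup (Fin n)) := Subgroup.normalClosure
  {x : FreeGroup (Fin n) | ∃ u ∈ W, ∃ g : ℕ → FreeGroup (Fin n), FreeGroup.lift g u = x}

lemma mem_Nn {n : ℕ} (w : FreeGroup (Fin n)) :
    w ∈ Nn n ↔ ∀ θ : Fin n → E, FreeGroup.lift θ w = 1 := by
  constructor
  · intro hw θ
    refine Subgroup.normalClosure_le_normal (N := (FreeGroup.lift θ).ker) ?_ hw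
    rintro _ ⟨u, hu, g, rfl⟩
    change FreeGroup.lift θ _ = 1
    rw [lift_lift]
    exact hu _
  · intro h
    refine Subgroup.subset_normalClosure ⟨FreeGroup.map Fin.val w, fun f => ?_,
      fun k => if hk : k < n then FreeGroup.of ⟨k, hk⟩ else 1, ?_⟩
    · have : (FreeGroup.lift f).comp (FreeGroup.map Fin.val) =
          FreeGroup.lift (fun i : Fin n => f i) := by
        ext1 i; simp
      have h2 := DFunLike.congr_fun this w
      rw [MonoidHom.comp_apply, h] at h2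
      exact h2
    · have : (FreeGroup.lift (fun k : ℕ => if hk : k < n then FreeGroup.of (⟨k, hk⟩ : Fin n)
          else 1)).comp (FreeGroup.map Fin.val) = MonoidHom.id _ := by
        ext1 i; simp
      exact DFunLike.congr_fun this w

instance (n : ℕ) : (Nn n).Normal := Subgroup.normalClosure_normal

lemma eq_iff {n : ℕ} (u v : FreeGroup (Fin n)) :
    (QuotientGroup.mk u : FreeGroup (Fin n) ⧸ Nn n) = QuotientGroup.mk v ↔
      ∀ θ : Fin n → E, FreeGroup.lift θ u = FreeGroup.lift θ v := by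
  rw [QuotientGroup.eq, mem_Nn]
  simp only [map_mul, map_inv, inv_mul_eq_one]

theorem part2 : ¬ ∃ (φ : (FreeGroup (Fin 2) ⧸ Nn 2) ≃* (FreeGroup (Fin 2) ⧸ Nn 2)) (i : Fin 2),
    φ (QuotientGroup.mk (FreeGroup.of i)) = QuotientGroup.mk (cc * FreeGroup.of 1) := by
  rintro ⟨φ, i, hi⟩
  choose a ha using fun j : Fin 2 =>
    QuotientGroup.mk_surjective (φ (QuotientGroup.mk (FreeGroup.of j)))
  choose b hb using fun j : Fin 2 =>
    QuotientGroup.mk_surjective (φ.symm (QuotientGroup.mk (FreeGroup.of j)))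
  have h1 : ∀ w, (QuotientGroup.mk (FreeGroup.lift a w) : FreeGroup (Fin 2) ⧸ Nn 2) =
      φ (QuotientGroup.mk w) := by
    intro w
    have : (QuotientGroup.mk' (Nn 2)).comp (FreeGroup.lift a) =
        φ.toMonoidHom.comp (QuotientGroup.mk' (Nn 2)) := by
      ext1 j; simp [ha]
    exact DFunLike.congr_fun this w
  have h2 : ∀ w, (QuotientGroup.mk (FreeGroup.lift b w) : FreeGroup (Fin 2) ⧸ Nn 2) =
      φ.symm (QuotientGroup.mk w) := by
    intro w
    have : (QuotientGroup.mk' (Nn 2)).comp (FreeGroup.lift b) =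
        φ.symm.toMonoidHom.comp (QuotientGroup.mk' (Nn 2)) := by
      ext1 j; simp [hb]
    exact DFunLike.congr_fun this w
  refine nonprim (fun j => mu (a j)) (fun j => mu (b j)) (fun j => ?_) (fun j => ?_) i ?_
  · have := h2 (a j)
    rw [ha, MulEquiv.symm_apply_apply, eq_iff] at this
    rw [← lift_eq, ← mu_lift]
    exact (this gens).trans (by simp)
  · have := h1 (b j)
    rw [hb, MulEquiv.apply_symm_apply, eq_iff] at this
    rw [← lift_eq, ← mu_lift]
    exact (this gens).trans (by simp)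
  · rw [← ha, eq_iff] at hi
    exact (hi gens).trans mu_h

theorem part3 : ∃ (ψ : (FreeGroup (Fin 3) ⧸ Nn 3) ≃* (FreeGroup (Fin 3) ⧸ Nn 3)) (j : Fin 3),
    ψ (QuotientGroup.mk (FreeGroup.of j)) = QuotientGroup.mk (inc (cc * FreeGroup.of 1)) := by
  obtain ⟨a, b, h1, h2, h3⟩ := rank3
  have hN : ∀ c : Fin 3 → FreeGroup (Fin 3), Nn 3 ≤ (Nn 3).comap (FreeGroup.lift c) := by
    intro c w hw
    rw [Subgroup.mem_comap, mem_Nn]
    intro θ
    rw [lift_lift]
    exact (mem_Nn w).mp hw _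
  refine ⟨MonoidHom.toMulEquiv (QuotientGroup.map _ _ (FreeGroup.lift a) (hN a))
    (QuotientGroup.map _ _ (FreeGroup.lift b) (hN b)) ?_ ?_, 1, ?_⟩
  · ext i
    simp only [MonoidHom.comp_apply, QuotientGroup.mk'_apply, QuotientGroup.map_mk,
      MonoidHom.id_apply, FreeGroup.lift_apply_of, eq_iff, h3, implies_true]
  · ext i
    simp only [MonoidHom.comp_apply, QuotientGroup.mk'_apply, QuotientGroup.map_mk,
      MonoidHom.id_apply, FreeGroup.lift_apply_of, eq_iff, h2, implies_true]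
  · simp [h1]

end Pool.Agent.H.MP_540292_al
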