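import Pool.Agent.H.MP_a23033_al.Ring

set_option autoImplicit false

namespace Pool.Agent.H.MP_540292_al

open Pool.Agent.H.MP_a23033_al MonoidAlgebra

def mp : List G := [⟨-1, 0, 0⟩, ⟨-1, 0, 1⟩, ⟨0, 0, 2⟩, ⟨1, 0, 1⟩, ⟨1, 0, 2⟩]
def mq : List G := [⟨-1, 0, 0⟩, ⟨-1, 0, 1⟩, ⟨-1, 1, 0⟩, ⟨-1, 1, 1⟩, ⟨0, 0, 1⟩, ⟨0, 0, 2⟩, ⟨0, 1, 0⟩, ⟨0, 1, 1⟩]
def mq0 : List G := [⟨-1, 0, 0⟩, ⟨-1, 0, 1⟩, ⟨0, 0, 1⟩, ⟨0, 0, 2⟩]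
def mq1 : List G := [⟨-1, 0, 0⟩, ⟨-1, 0, 1⟩, ⟨0, 0, 0⟩, ⟨0, 0, 1⟩]
def mu1 : List G := [⟨-3, 0, 1⟩, ⟨-3, 0, 3⟩, ⟨-3, 1, -2⟩, ⟨-3, 1, 0⟩, ⟨-2, 0, 2⟩, ⟨-2, 0, 4⟩, ⟨-2, 1, -2⟩, ⟨-2, 1, 2⟩, ⟨-1, 0, 0⟩, ⟨-1, 0, 1⟩, ⟨-1, 0, 3⟩, ⟨-1, 0, 5⟩, ⟨-1, 1, 2⟩, ⟨-1, 1, 4⟩, ⟨0, 0, 6⟩, ⟨0, 1, 0⟩, ⟨0, 1, 2⟩, ⟨0, 1, 4⟩, ⟨0, 1, 6⟩, ⟨1, 0, 2⟩, ⟨1, 0, 3⟩, ⟨1, 1, 2⟩, ⟨1, 1, 4⟩, ⟨2, 0, 4⟩, ⟨2, 0, 6⟩, ⟨2, 1, 4⟩, ⟨2, 1, 8⟩, ⟨3, 0, 3⟩, ⟨3, 0, 5⟩, ⟨3, 1, 6⟩, ⟨3, 1, 8⟩]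
def mv1 : List G := [⟨-3, 0, 1⟩, ⟨-3, 0, 3⟩, ⟨-2, 0, 3⟩, ⟨-2, 0, 4⟩, ⟨-1, 0, 0⟩, ⟨-1, 0, 1⟩, ⟨-1, 0, 2⟩, ⟨-1, 0, 3⟩, ⟨-1, 0, 4⟩, ⟨-1, 0, 5⟩, ⟨0, 0, 1⟩, ⟨0, 0, 4⟩, ⟨0, 0, 5⟩, ⟨0, 0, 6⟩, ⟨1, 0, 0⟩, ⟨1, 0, 6⟩, ⟨2, 0, 1⟩, ⟨2, 0, 6⟩, ⟨3, 0, 2⟩, ⟨3, 0, 4⟩, ⟨3, 0, 5⟩, ⟨3, 0, 6⟩, ⟨4, 0, 3⟩, ⟨4, 0, 5⟩]
def mvh : List G := [⟨-3, 0, 1⟩, ⟨-3, 0, 2⟩, ⟨-2, 0, 3⟩, ⟨-1, 0, 0⟩, ⟨-1, 0, 2⟩, ⟨-1, 0, 4⟩, ⟨0, 0, 1⟩, ⟨0, 0, 2⟩, ⟨0, 0, 3⟩, ⟨0, 0, 5⟩, ⟨1, 0, 0⟩, ⟨1, 0, 1⟩, ⟨1, 0, 2⟩, ⟨1, 0, 3⟩, ⟨1, 0, 4⟩, ⟨1, 0, 5⟩, ⟨2, 0, 1⟩, ⟨2, 0, 2⟩, ⟨2, 0, 3⟩, ⟨2, 0, 4⟩, ⟨2, 0, 5⟩, ⟨3, 0, 2⟩, ⟨3, 0, 3⟩, ⟨3, 0, 5⟩, ⟨4, 0, 3⟩, ⟨4, 0, 4⟩]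
def mata : List G := [⟨-3, 0, 1⟩, ⟨-3, 0, 2⟩, ⟨-3, 1, -2⟩, ⟨-3, 1, -1⟩, ⟨-2, 0, 2⟩, ⟨-2, 0, 3⟩, ⟨-2, 1, -2⟩, ⟨-2, 1, -1⟩, ⟨-2, 1, 0⟩, ⟨-2, 1, 1⟩, ⟨-1, 0, 0⟩, ⟨-1, 0, 3⟩, ⟨-1, 0, 4⟩, ⟨-1, 1, 2⟩, ⟨-1, 1, 3⟩, ⟨0, 0, 0⟩, ⟨0, 0, 1⟩, ⟨0, 0, 2⟩, ⟨0, 0, 3⟩, ⟨0, 0, 4⟩, ⟨0, 0, 5⟩, ⟨0, 1, 0⟩, ⟨0, 1, 1⟩, ⟨0, 1, 4⟩, ⟨0, 1, 5⟩, ⟨1, 0, 2⟩, ⟨1, 1, 2⟩, ⟨1, 1, 3⟩, ⟨2, 0, 4⟩, ⟨2, 0, 5⟩, ⟨2, 1, 4⟩, ⟨2, 1, 5⟩, ⟨2, 1, 6⟩, ⟨2, 1, 7⟩, ⟨3, 0, 3⟩, ⟨3, 0, 4⟩, ⟨3, 1, 6⟩, ⟨3, 1, 7⟩]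
def mU0 : List G := [⟨-2, 0, 1⟩, ⟨-2, 0, 3⟩, ⟨-1, 0, 2⟩, ⟨-1, 0, 4⟩, ⟨0, 0, 0⟩, ⟨1, 0, 2⟩, ⟨1, 0, 4⟩, ⟨2, 0, 1⟩, ⟨2, 0, 3⟩]
def mV0 : List G := [⟨-2, 0, 1⟩, ⟨-2, 0, 3⟩, ⟨-2, 1, -1⟩, ⟨-2, 1, 1⟩, ⟨-1, 0, 3⟩, ⟨-1, 0, 4⟩, ⟨-1, 1, -1⟩, ⟨-1, 1, 1⟩, ⟨-1, 1, 2⟩, ⟨-1, 1, 3⟩, ⟨0, 0, 0⟩, ⟨0, 0, 2⟩, ⟨0, 0, 3⟩, ⟨0, 0, 4⟩, ⟨0, 1, 3⟩, ⟨0, 1, 4⟩, ⟨1, 0, 1⟩, ⟨1, 0, 3⟩, ⟨1, 1, 2⟩, ⟨1, 1, 4⟩]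
def mU1 : List G := [⟨-1, 0, 0⟩, ⟨-1, 0, 1⟩, ⟨-1, 1, 0⟩, ⟨-1, 1, 1⟩, ⟨0, 0, -1⟩, ⟨0, 0, 0⟩, ⟨0, 0, 2⟩, ⟨0, 1, 2⟩, ⟨1, 0, 2⟩, ⟨1, 1, -1⟩, ⟨1, 1, 0⟩, ⟨1, 1, 2⟩, ⟨2, 0, 0⟩, ⟨2, 0, 1⟩, ⟨2, 1, 0⟩, ⟨2, 1, 1⟩]
def mV1 : List G := [⟨-1, 0, 0⟩, ⟨-1, 0, 1⟩, ⟨-1, 1, -1⟩, ⟨-1, 1, 1⟩, ⟨-1, 2, -1⟩, ⟨-1, 2, 0⟩, ⟨0, 0, -1⟩, ⟨0, 0, 0⟩, ⟨0, 0, 1⟩, ⟨0, 0, 2⟩, ⟨0, 2, -1⟩, ⟨0, 2, 0⟩, ⟨0, 2, 1⟩, ⟨0, 2, 2⟩, ⟨1, 0, 0⟩, ⟨1, 0, 1⟩, ⟨1, 1, 0⟩, ⟨1, 1, 2⟩, ⟨1, 2, 1⟩, ⟨1, 2, 2⟩]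
def mf0 : List G := [⟨-1, 0, 0⟩, ⟨-1, 0, 1⟩, ⟨0, 0, -1⟩, ⟨0, 0, 0⟩, ⟨0, 0, 2⟩, ⟨1, 0, 2⟩, ⟨2, 0, 0⟩, ⟨2, 0, 1⟩]
def mf1 : List G := [⟨-1, 1, 0⟩, ⟨-1, 1, 1⟩, ⟨0, 1, 2⟩, ⟨1, 1, -1⟩, ⟨1, 1, 0⟩, ⟨1, 1, 2⟩, ⟨2, 1, 0⟩, ⟨2, 1, 1⟩]
def mtg : List G := [⟨-2, 1, -1⟩, ⟨-2, 1, 1⟩, ⟨-1, 1, 2⟩, ⟨-1, 1, 3⟩, ⟨0, 1, -1⟩, ⟨0, 1, 1⟩, ⟨0, 1, 2⟩, ⟨0, 1, 4⟩, ⟨1, 1, 2⟩, ⟨1, 1, 3⟩, ⟨2, 1, 2⟩, ⟨2, 1, 4⟩]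

def gz : G := ⟨0, 0, 1⟩

lemma j1 : P mp * P mu1 + P mq * P mv1 = 1 := by
  rw [← P_lm, ← P_lm, ← P_app]
  exact (P_eq _ [1] (by decide +kernel)).trans (by simp [P, o_one])

lemma Pz : P [gz, 1] = o gz + 1 := by simp [P, o_one]

lemma j2 : P mv1 = (o gz + 1) * P mvh := by
  rw [← Pz, ← P_lm]
  exact P_eq _ _ (by decide +kernel)

lemma j3 : (o gz + 1) * P mata = 1 + P mu1 := by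
  rw [← Pz, ← P_lm, ← o_one, ← P_cons]
  exact P_eq _ _ (by decide +kernel)

lemma j4 : P mq * P mU0 + P mp * P mV0 = 0 := by
  rw [← P_lm, ← P_lm, ← P_app]
  exact P_eq _ [] (by decide +kernel)

lemma j5 : P mq * P mU1 + P mp * P mV1 = 0 := by
  rw [← P_lm, ← P_lm, ← P_app]
  exact P_eq _ [] (by decide +kernel)

lemma j6 : P mq = P mq0 + P mq1 * o gy := by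
  rw [show o gy = P [gy] by simp [P], ← P_lm, ← P_app]
  exact P_eq _ _ (by decide +kernel)

lemma j7 : P mU1 = P mf0 + P mf1 := by
  rw [← P_app]
  exact P_eq _ _ (by decide +kernel)

lemma j8 : P mq1 * o gy * P mf0 = P mtg := by
  rw [show o gy = P [gy] by simp [P], ← P_lm, ← P_lm]
  exact P_eq _ _ (by decide +kernel)

lemma P_supp (l : List G) (d : ℤ) (h : ∀ g ∈ l, g.j = d) : ∀ g ∈ (P l).coeff.support, g.j = d := by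
  intro g hg
  rw [Finsupp.mem_support_iff, P_coeff] at hg
  refine h g ?_
  by_contra h2
  rw [List.count_eq_zero_of_not_mem h2] at hg
  exact hg rfl

lemma Cp_zero (d : ℤ) : Cp d 0 = 0 := by simp [Cp, Finsupp.filter_zero]

lemma Cp_P (l : List G) (h : ∀ g ∈ l, g.j = 0) (d : ℤ) (s : S) :
    Cp d (P l * s) = P l * Cp d s := by
  induction l with
  | nil => simp [P_nil, Cp_zero]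
  | cons a l ih =>
    rw [P_cons, add_mul, add_mul, Cp_add, Cp_o, h a (by simp), sub_zero,
      ih (fun g hg => h g (by simp [hg]))]

lemma Cp_mul (n : S) (d : ℤ) (hd : ∀ g ∈ n.coeff.support, g.j = d) (e : ℤ) (s : S) :
    Cp e (n * s) = n * Cp (e - d) s := by
  induction s using MonoidAlgebra.induction_linear with
  | zero => simp [Cp_zero]
  | add f g hf hg => rw [mul_add, Cp_add, Cp_add, mul_add, hf, hg]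
  | single g c =>
    rw [Cp_hom e (d + g.j), Cp_hom (e - d) g.j]
    · by_cases h : e = d + g.j
      · rw [if_pos h, if_pos (by omega)]
      · rw [if_neg h, if_neg (by omega), mul_zero]
    · intro x hx
      rw [Finsupp.mem_support_iff] at hx
      by_contra hne
      apply hx
      rw [coeff_single, Finsupp.single_eq_of_ne]
      rintro rfl
      exact hne rfl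
    · intro x hx
      rw [Finsupp.mem_support_iff, coeff_mul_single_apply] at hx
      have := hd _ (Finsupp.mem_support_iff.mpr (left_ne_zero_of_mul hx))
      simp only [mul_j, inv_j] at this
      omega

def T (n : ZMod 15) : ZMod 2 := [0, 0, 0, 1, 0, 0, 1, 1, 0, 1, 0, 1, 1, 1, 1].getD n.val 0

noncomputable def ps : S →+ ZMod 2 :=
  (Finsupp.liftAddHom fun g : G => AddMonoidHom.mulLeft (T ((g.i + g.k : ℤ) : ZMod 15)) :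
    (G →₀ ZMod 2) →+ ZMod 2).comp coeffAddEquiv.toAddMonoidHom

lemma ps_single (g : G) (c : ZMod 2) : ps (single g c) = T ((g.i + g.k : ℤ) : ZMod 15) * c := by
  simp [ps, coeffAddEquiv]

lemma ps_p (s : S) : ps (P mp * s) = 0 := by
  induction s using MonoidAlgebra.induction_linear with
  | zero => simp
  | add f g hf hg => rw [mul_add, map_add, hf, hg, add_zero]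
  | single g c =>
    have key : ∀ x : ZMod 15, T (x - 1) + (T x + (T (x + 2) + (T (x + 2) + T (x + 3)))) = 0 := by
      decide
    have := key ((g.i + g.k : ℤ) : ZMod 15)
    simp only [mp, P_cons, P_nil, add_zero, add_mul, o, single_mul_single, map_add, ps_single,
      mul_i, mul_k, one_mul, zero_mul]
    rw [← add_mul, ← add_mul, ← add_mul, ← add_mul]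
    refine (congrArg (· * c) (Eq.trans ?_ this)).trans (zero_mul c)
    push_cast
    ring_nf

lemma ps_P (l : List G) : ps (P l) = (l.map fun g => T ((g.i + g.k : ℤ) : ZMod 15)).sum := by
  induction l with
  | nil => simp [P_nil]
  | cons a l ih => rw [P_cons, map_add, ih, o, ps_single]; simp

theorem nonfree (n n' : S) (h0 : P mq * n + P mp * n' = 0)
    (h : ∀ u v : S, P mq * u + P mp * v = 0 → ∃ s, u = n * s) : False := by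
  obtain ⟨s, hs⟩ := h _ _ j4
  obtain ⟨s', hs'⟩ := h _ _ j5
  obtain ⟨d, hd⟩ := homog n s (by
      rw [← hs]
      intro h1
      have := P_coeff mU0 1
      rw [h1] at this
      revert this
      simp only [coeff_zero, Finsupp.zero_apply]
      decide +kernel) (by rw [← hs]; exact P_supp _ _ (by decide))
  have h1 := congrArg (Cp (d + 1)) h0
  rw [j6, add_mul, mul_assoc, Cp_add, Cp_add, Cp_P _ (by decide), Cp_P _ (by decide),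
    Cp_P _ (by decide), Cp_o, Cp_hom _ _ _ hd, Cp_hom _ _ _ hd, if_neg (by omega),
    if_pos (by simp [gy]), Cp_zero, mul_zero, zero_add] at h1
  have h2 := congrArg (Cp 0) hs'
  rw [j7, Cp_add, Cp_hom 0 0 _ (P_supp _ _ (by decide)), Cp_hom 0 1 _ (P_supp _ _ (by decide)),
    Cp_mul n d hd, if_pos rfl, if_neg (by omega), add_zero] at h2
  have h3 : P mq1 * (o gy * n) = P mp * Cp (d + 1) n' := by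
    rw [← add_zero (P mq1 * _), ← add_self (P mp * Cp (d + 1) n'), ← add_assoc, h1, zero_add]
  have h4 := ps_p (Cp (d + 1) n' * Cp (0 - d) s')
  rw [← mul_assoc, ← h3, mul_assoc, mul_assoc, ← h2, ← mul_assoc, j8, ps_P] at h4
  revert h4
  decide +kernel

end Pool.Agent.H.MP_540292_al
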